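import Pool.Agent.helper8.FF.Kakeya

/-!
Project FF, part 3: covering a finite group by translates of a set, and the Kakeya bound for sets
with lines in a set of directions of positive density.
-/

set_option autoImplicit false

namespace Pool.Agent.helper8.FF

open Finset

section cover

variable {G : Type*} [Group G] [Fintype G] [DecidableEq G]

/-- The elements not covered by the translates `c Z`, `c ∈ T`. -/
def uncovered (Z T : Finset G) : Finset G := Finset.univ.filter fun u => ∀ c ∈ T, c⁻¹ * u ∉ Z

theorem cover_step (Z T : Finset G) :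
    ∃ c : G, (uncovered Z (insert c T)).card * Fintype.card G ≤
      (uncovered Z T).card * (Fintype.card G - Z.card) := by
  classical
  set U := uncovered Z T with hU
  have hcount : ∑ c : G, (U.filter fun u => c⁻¹ * u ∈ Z).card = U.card * Z.card := by
    calc ∑ c : G, (U.filter fun u => c⁻¹ * u ∈ Z).card
        = ∑ c : G, ∑ u ∈ U, (if c⁻¹ * u ∈ Z then 1 else 0) := by
          refine Finset.sum_congr rfl fun c _ => ?_
          rw [Finset.card_filter]
      _ = ∑ u ∈ U, ∑ c : G, (if c⁻¹ * u ∈ Z then 1 else 0) := Finset.sum_comm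
      _ = ∑ u ∈ U, Z.card := by
          refine Finset.sum_congr rfl fun u _ => ?_
          rw [← Finset.card_filter]
          refine Finset.card_bij' (fun c _ => c⁻¹ * u) (fun z _ => u * z⁻¹) ?_ ?_ ?_ ?_
          · intro c hc
            exact (Finset.mem_filter.mp hc).2
          · intro z hz
            rw [Finset.mem_filter]
            refine ⟨Finset.mem_univ _, ?_⟩
            simpa using hz
          · intro c _
            simp
          · intro z _
            simp
      _ = U.card * Z.card := by rw [Finset.sum_const, smul_eq_mul]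
  obtain ⟨c, hc⟩ : ∃ c : G, U.card * Z.card ≤
      (U.filter fun u => c⁻¹ * u ∈ Z).card * Fintype.card G := by
    by_contra hno
    push Not at hno
    have h1 : ∑ c : G, (U.filter fun u => c⁻¹ * u ∈ Z).card * Fintype.card G <
        ∑ _c : G, U.card * Z.card :=
      Finset.sum_lt_sum_of_nonempty ⟨1, Finset.mem_univ _⟩ fun c _ => hno c
    rw [← Finset.sum_mul, hcount, Finset.sum_const, Finset.card_univ, smul_eq_mul] at h1
    rw [mul_comm] at h1
    exact lt_irrefl _ h1
  refine ⟨c, ?_⟩
  have hsub : uncovered Z (insert c T) = U.filter fun u => ¬ (c⁻¹ * u ∈ Z) := by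
    ext u
    simp only [uncovered, hU, Finset.mem_filter, Finset.mem_univ, true_and, Finset.mem_insert,
      forall_eq_or_imp]
    tauto
  rw [hsub]
  have hsplit := Finset.card_filter_add_card_filter_not (s := U) (fun u => c⁻¹ * u ∈ Z)
  have hZ : Z.card ≤ Fintype.card G := Finset.card_le_univ Z
  obtain ⟨r, hr⟩ := Nat.exists_eq_add_of_le hZ
  rw [hr] at hc ⊢
  rw [Nat.add_sub_cancel_left]
  nlinarith [hsplit, hc]

theorem cover_iter (Z : Finset G) (n : ℕ) :
    ∃ T : Finset G, T.card ≤ n ∧ (uncovered Z T).card * Fintype.card G ^ n ≤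
      Fintype.card G * (Fintype.card G - Z.card) ^ n := by
  induction n with
  | zero =>
    refine ⟨∅, le_rfl, ?_⟩
    rw [pow_zero, pow_zero, mul_one, mul_one]
    exact Finset.card_le_univ _
  | succ n ih =>
    obtain ⟨T, hT, h⟩ := ih
    obtain ⟨c, hc⟩ := cover_step Z T
    refine ⟨insert c T, (Finset.card_insert_le _ _).trans (by omega), ?_⟩
    calc (uncovered Z (insert c T)).card * Fintype.card G ^ (n + 1)
        = ((uncovered Z (insert c T)).card * Fintype.card G) * Fintype.card G ^ n := by ring
      _ ≤ ((uncovered Z T).card * (Fintype.card G - Z.card)) * Fintype.card G ^ n :=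
          Nat.mul_le_mul_right _ hc
      _ = ((uncovered Z T).card * Fintype.card G ^ n) * (Fintype.card G - Z.card) := by ring
      _ ≤ (Fintype.card G * (Fintype.card G - Z.card) ^ n) * (Fintype.card G - Z.card) :=
          Nat.mul_le_mul_right _ h
      _ = Fintype.card G * (Fintype.card G - Z.card) ^ (n + 1) := by ring

/-- A finite group is covered by few translates of a nonempty set. -/
theorem cover (Z : Finset G) (hZ : Z.Nonempty) :
    ∃ T : Finset G, (T.card : ℝ) ≤
        (Fintype.card G : ℝ) / Z.card * Real.log (Fintype.card G) + 1 ∧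
      ∀ u : G, ∃ c ∈ T, c⁻¹ * u ∈ Z := by
  classical
  have hG : 0 < Fintype.card G := Fintype.card_pos
  have hGr : (0 : ℝ) < Fintype.card G := by exact_mod_cast hG
  have hZc : 0 < Z.card := Finset.card_pos.mpr hZ
  have hZr : (0 : ℝ) < Z.card := by exact_mod_cast hZc
  have hlog : 0 ≤ Real.log (Fintype.card G) := Real.log_nonneg (by exact_mod_cast hG)
  set x : ℝ := (Fintype.card G : ℝ) / Z.card * Real.log (Fintype.card G) with hx
  have hx0 : 0 ≤ x := by positivity
  set n : ℕ := ⌊x⌋₊ + 1 with hn
  have hnx : x < n := by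
    rw [hn]
    push_cast
    exact Nat.lt_floor_add_one x
  have hnx' : (n : ℝ) ≤ x + 1 := by
    rw [hn]
    push_cast
    linarith [Nat.floor_le hx0]
  obtain ⟨T, hT, h⟩ := cover_iter Z n
  refine ⟨T, le_trans (by exact_mod_cast hT) hnx', ?_⟩
  have hUempty : (uncovered Z T).card = 0 := by
    by_contra hne
    have h1 : 1 ≤ (uncovered Z T).card := Nat.one_le_iff_ne_zero.mpr hne
    have h2 : (Fintype.card G : ℝ) ^ n ≤
        Fintype.card G * ((Fintype.card G : ℝ) - Z.card) ^ n := by
      have h3 : Fintype.card G ^ n ≤ Fintype.card G * (Fintype.card G - Z.card) ^ n :=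
        le_trans (by nlinarith [pow_pos hG n]) h
      have h4 : ((Fintype.card G - Z.card : ℕ) : ℝ) = (Fintype.card G : ℝ) - Z.card :=
        Nat.cast_sub (Finset.card_le_univ Z)
      rw [← h4]
      exact_mod_cast h3
    have h5 : ((Fintype.card G : ℝ) - Z.card) = Fintype.card G * (1 - Z.card / Fintype.card G) := by
      field_simp
    have hρ : (Z.card : ℝ) / Fintype.card G ≤ 1 := by
      rw [div_le_one hGr]
      exact_mod_cast Finset.card_le_univ Z
    have h6 : (1 - (Z.card : ℝ) / Fintype.card G) ^ n ≤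
        Real.exp (-(Z.card / Fintype.card G * n)) := by
      have := Real.one_sub_le_exp_neg ((Z.card : ℝ) / Fintype.card G)
      calc (1 - (Z.card : ℝ) / Fintype.card G) ^ n
          ≤ (Real.exp (-(Z.card / Fintype.card G))) ^ n :=
            pow_le_pow_left₀ (by linarith) this n
        _ = Real.exp (-(Z.card / Fintype.card G * n)) := by
            rw [← Real.exp_nat_mul]
            congr 1
            ring
    have h7 : Real.exp (-(Z.card / Fintype.card G * n)) < (Fintype.card G : ℝ)⁻¹ := by
      rw [← Real.exp_log (inv_pos.mpr hGr), Real.log_inv]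
      apply Real.exp_lt_exp.mpr
      have : Real.log (Fintype.card G) < Z.card / Fintype.card G * n := by
        have h8 := mul_lt_mul_of_pos_left hnx (div_pos hZr hGr)
        rw [hx] at h8
        have h9 : (Z.card : ℝ) / Fintype.card G * (Fintype.card G / Z.card *
            Real.log (Fintype.card G)) = Real.log (Fintype.card G) := by
          field_simp
        rwa [h9] at h8
      linarith
    rw [h5, mul_pow] at h2
    have h10 : (Fintype.card G : ℝ) ^ n * (1 - Z.card / Fintype.card G) ^ n <
        (Fintype.card G : ℝ) ^ n * (Fintype.card G : ℝ)⁻¹ :=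
      mul_lt_mul_of_pos_left (lt_of_le_of_lt h6 h7) (pow_pos hGr n)
    have h11 : (Fintype.card G : ℝ) * ((Fintype.card G : ℝ) ^ n * (1 - Z.card / Fintype.card G) ^ n) <
        (Fintype.card G : ℝ) * ((Fintype.card G : ℝ) ^ n * (Fintype.card G : ℝ)⁻¹) :=
      mul_lt_mul_of_pos_left h10 hGr
    have h12 : (Fintype.card G : ℝ) * ((Fintype.card G : ℝ) ^ n * (Fintype.card G : ℝ)⁻¹) =
        (Fintype.card G : ℝ) ^ n := by
      field_simp
    linarith
  intro u
  by_contra hno
  push Not at hno
  have : u ∈ uncovered Z T := by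
    rw [uncovered, Finset.mem_filter]
    exact ⟨Finset.mem_univ _, hno⟩
  rw [Finset.card_eq_zero.mp hUempty] at this
  exact absurd this (Finset.notMem_empty u)

end cover

section dirs

variable {F : Type*} [Field F] [Fintype F]

/-- Kakeya bound with a set `Z` of directions. -/
theorem kakeya_dirs {d : ℕ} (E : Type*) [Field E] [Algebra F E] [Fintype E]
    (hE : Module.finrank F E = d) (S Z : Finset E) (hZ : Z.Nonempty) (hZ0 : (0 : E) ∉ Z)
    (h : ∀ z ∈ Z, ∃ a : E, ∀ s : F, a + s • z ∈ S) :
    ((Fintype.card F : ℝ)) ^ d ≤ 2 ^ d *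
      (((Fintype.card F : ℝ) ^ d - 1) / Z.card * Real.log ((Fintype.card F : ℝ) ^ d) + 1) *
        S.card := by
  classical
  have hfin : FiniteDimensional F E := by
    have : Finite E := Finite.of_fintype E
    exact Module.Finite.of_finite
  have hcardE : Fintype.card E = Fintype.card F ^ d := by
    rw [← hE]
    exact Module.card_eq_pow_finrank
  have hcardU : Fintype.card Eˣ = Fintype.card F ^ d - 1 := by
    rw [Fintype.card_units, hcardE]
  -- the directions as units
  let Z' : Finset Eˣ := Finset.univ.filter fun u => (u : E) ∈ Z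
  have hZ'card : Z'.card = Z.card := by
    refine Finset.card_bij (fun u _ => (u : E)) ?_ ?_ ?_
    · intro u hu
      exact (Finset.mem_filter.mp hu).2
    · intro u _ v _ huv
      exact Units.ext huv
    · intro z hz
      have hz0 : z ≠ 0 := fun h0 => hZ0 (h0 ▸ hz)
      exact ⟨Units.mk0 z hz0, Finset.mem_filter.mpr ⟨Finset.mem_univ _, hz⟩, rfl⟩
  have hZ'ne : Z'.Nonempty := by
    rw [← Finset.card_pos, hZ'card]
    exact Finset.card_pos.mpr hZ
  obtain ⟨T, hT, hcov⟩ := cover Z' hZ'ne
  obtain ⟨z₀, hz₀⟩ := hZ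
  obtain ⟨a₀, ha₀⟩ := h z₀ hz₀
  let ψ : E ≃ₗ[F] (Fin d → F) := LinearEquiv.ofFinrankEq E (Fin d → F) (by
    rw [hE, Module.finrank_fin_fun])
  let K : Finset (Fin d → F) := (T ×ˢ S).image fun x => ψ ((x.1 : E) * x.2)
  have hKcard : K.card ≤ T.card * S.card := by
    refine Finset.card_image_le.trans ?_
    rw [Finset.card_product]
  have hK : ∀ v : Fin d → F, ∃ a : Fin d → F, ∀ s : F, (fun i => a i + s * v i) ∈ K := by
    intro v
    by_cases hv : v = 0
    · obtain ⟨c, hc, _⟩ := hcov 1
      refine ⟨ψ ((c : E) * (a₀ + (0 : F) • z₀)), fun s => ?_⟩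
      have : (fun i => ψ ((c : E) * (a₀ + (0 : F) • z₀)) i + s * v i) =
          ψ ((c : E) * (a₀ + (0 : F) • z₀)) := by
        funext i
        rw [hv]
        simp
      rw [this]
      exact Finset.mem_image.mpr ⟨(c, a₀ + (0 : F) • z₀),
        Finset.mem_product.mpr ⟨hc, ha₀ 0⟩, rfl⟩
    · have hu : ψ.symm v ≠ 0 := by
        intro h0
        exact hv (by simpa using congrArg ψ h0)
      obtain ⟨c, hc, hcz⟩ := hcov (Units.mk0 _ hu)
      have hcz' := (Finset.mem_filter.mp hcz).2
      obtain ⟨a, ha⟩ := h _ hcz'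
      refine ⟨ψ ((c : E) * a), fun s => ?_⟩
      refine Finset.mem_image.mpr ⟨(c, a + s • ((c⁻¹ * Units.mk0 _ hu : Eˣ) : E)),
        Finset.mem_product.mpr ⟨hc, ha s⟩, ?_⟩
      have h1 : (c : E) * (a + s • ((c⁻¹ * Units.mk0 _ hu : Eˣ) : E)) =
          (c : E) * a + s • ψ.symm v := by
        rw [mul_add, mul_smul_comm]
        congr 2
        rw [← Units.val_mul, mul_inv_cancel_left, Units.val_mk0]
      funext i
      simp only []
      rw [h1, map_add, map_smul, LinearEquiv.apply_symm_apply]
      rfl
  have hmain := kakeya K hK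
  have hq1 : 1 ≤ Fintype.card F ^ d := Nat.one_le_pow _ _ Fintype.card_pos
  have hd1 : (Fintype.card Eˣ : ℝ) = (Fintype.card F : ℝ) ^ d - 1 := by
    rw [hcardU]
    push_cast [Nat.cast_sub hq1]
    ring
  have hlogle : Real.log (Fintype.card Eˣ) ≤ Real.log ((Fintype.card F : ℝ) ^ d) := by
    apply Real.log_le_log
    · exact_mod_cast Fintype.card_pos
    · rw [hd1]
      linarith
  have hT2 : (T.card : ℝ) ≤ ((Fintype.card F : ℝ) ^ d - 1) / Z.card *
      Real.log ((Fintype.card F : ℝ) ^ d) + 1 := by
    refine hT.trans ?_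
    rw [hZ'card, ← hd1]
    have : (0 : ℝ) ≤ (Fintype.card Eˣ : ℝ) / Z.card := by positivity
    nlinarith [mul_le_mul_of_nonneg_left hlogle this]
  have hmain' : ((Fintype.card F : ℝ)) ^ d ≤ 2 ^ d * K.card := by exact_mod_cast hmain
  have hK' : (K.card : ℝ) ≤ T.card * S.card := by exact_mod_cast hKcard
  calc ((Fintype.card F : ℝ)) ^ d ≤ 2 ^ d * K.card := hmain'
    _ ≤ 2 ^ d * (T.card * S.card) := by gcongr
    _ ≤ 2 ^ d * ((((Fintype.card F : ℝ) ^ d - 1) / Z.card *
          Real.log ((Fintype.card F : ℝ) ^ d) + 1) * S.card) := by gcongr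
    _ = _ := by ring

end dirs

end Pool.Agent.helper8.FF
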