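import Mathlib

/-!
Project FF, part 4: lower bound for the number of monic irreducible polynomials of degree `m` over
a finite field.
-/

set_option autoImplicit false

namespace Pool.Agent.helper8.FF

open Polynomial

variable {F : Type*} [Field F] [Fintype F]

/-- Monic irreducible polynomials of degree `m`. -/
def irr (F : Type*) [Field F] (m : ℕ) : Set F[X] :=
  {p | p.Monic ∧ Irreducible p ∧ p.natDegree = m}

theorem finite_degree_lt (d : ℕ) : {p : F[X] | p.degree < d}.Finite := by
  have h : Finite (degreeLT F d) := Module.finite_of_finite F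
  have h2 : ({p : F[X] | p.degree < d} : Set F[X]) = (degreeLT F d : Set F[X]) := by
    ext p
    exact mem_degreeLT.symm
  rw [h2]
  exact Set.toFinite _

theorem irr_finite (m : ℕ) : (irr F m).Finite := by
  refine (finite_degree_lt (F := F) (m + 1)).subset ?_
  intro p hp
  have h1 : p.degree ≤ p.natDegree := degree_le_natDegree
  rw [hp.2.2] at h1
  exact lt_of_le_of_lt h1 (by exact_mod_cast Nat.lt_succ_self m)

theorem irr_count_aux (m : ℕ) (hm : 1 ≤ m) :
    Fintype.card F ^ m ≤ m * (irr F m).ncard + ∑ k ∈ Finset.Icc 1 (m / 2), Fintype.card F ^ k := by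
  classical
  obtain ⟨p, hp⟩ := CharP.exists F
  have : Fact (Nat.Prime p) := ⟨CharP.char_is_prime F p⟩
  have : NeZero m := ⟨by omega⟩
  let E := FiniteField.Extension F p m
  have hEfin : Fintype E := Fintype.ofFinite E
  have hcard : Fintype.card E = Fintype.card F ^ m := by
    rw [Fintype.card_eq_nat_card, Fintype.card_eq_nat_card]
    exact FiniteField.natCard_extension F p m
  have hrank : Module.finrank F E = m := FiniteField.finrank_extension F p m
  have hint : ∀ x : E, IsIntegral F x := fun x => IsIntegral.of_finite F x
  have hdvd : ∀ x : E, (minpoly F x).natDegree ∣ m := by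
    intro x
    have := minpoly.degree_dvd (hint x)
    rwa [hrank] at this
  have hpos : ∀ x : E, 0 < (minpoly F x).natDegree := fun x => minpoly.natDegree_pos (hint x)
  let A : Finset E := Finset.univ.filter fun x => (minpoly F x).natDegree = m
  let B : Finset E := Finset.univ.filter fun x => ¬ (minpoly F x).natDegree = m
  have hAB : A.card + B.card = Fintype.card F ^ m := by
    rw [← hcard, ← Finset.card_univ]
    exact Finset.card_filter_add_card_filter_not _
  -- A
  have hA : A.card ≤ m * (irr F m).ncard := by
    have hI : A.image (fun x => minpoly F x) ⊆ (irr_finite (F := F) m).toFinset := by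
      intro f hf
      obtain ⟨x, hx, rfl⟩ := Finset.mem_image.mp hf
      rw [Set.Finite.mem_toFinset]
      exact ⟨minpoly.monic (hint x), minpoly.irreducible (hint x), (Finset.mem_filter.mp hx).2⟩
    have h1 : A.card ≤ m * (A.image (fun x => minpoly F x)).card := by
      refine Finset.card_le_mul_card_image _ _ ?_
      intro f hf
      obtain ⟨x, hx, rfl⟩ := Finset.mem_image.mp hf
      have hmon := minpoly.monic (hint x)
      have hdeg := (Finset.mem_filter.mp hx).2
      refine (Finset.card_le_card (t := ((minpoly F x).map (algebraMap F E)).roots.toFinset) ?_).trans ?_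
      · intro y hy
        have hy' := (Finset.mem_filter.mp hy).2
        rw [Multiset.mem_toFinset, mem_roots (hmon.map _).ne_zero, IsRoot, eval_map_algebraMap]
        rw [← hy']
        exact minpoly.aeval F y
      · refine (Multiset.toFinset_card_le _).trans ((card_roots' _).trans ?_)
        rw [natDegree_map]
        exact hdeg.le
    refine h1.trans (Nat.mul_le_mul_left _ ?_)
    rw [Set.ncard_eq_toFinset_card _ (irr_finite (F := F) m)]
    exact Finset.card_le_card hI
  -- B
  have hB : B.card ≤ ∑ k ∈ Finset.Icc 1 (m / 2), Fintype.card F ^ k := by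
    have hsub : B ⊆ (Finset.Icc 1 (m / 2)).biUnion fun k =>
        ((X ^ (Fintype.card F ^ k) - X : E[X])).roots.toFinset := by
      intro x hx
      have hx' := (Finset.mem_filter.mp hx).2
      rw [Finset.mem_biUnion]
      refine ⟨(minpoly F x).natDegree, ?_, ?_⟩
      · rw [Finset.mem_Icc]
        refine ⟨hpos x, ?_⟩
        obtain ⟨c, hc⟩ := hdvd x
        have hc2 : 2 ≤ c := by
          rcases c with _ | _ | c
          · omega
          · omega
          · omega
        rw [Nat.le_div_iff_mul_le (by norm_num)]
        calc (minpoly F x).natDegree * 2 ≤ (minpoly F x).natDegree * c := Nat.mul_le_mul_left _ hc2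
          _ = m := hc.symm
      · have hne : (X ^ (Fintype.card F ^ (minpoly F x).natDegree) - X : E[X]) ≠ 0 :=
          FiniteField.X_pow_card_pow_sub_X_ne_zero _ (hpos x).ne' Fintype.one_lt_card
        rw [Multiset.mem_toFinset, mem_roots hne]
        have h1 := (minpoly.irreducible (hint x)).natDegree_dvd_iff_dvd_X_pow_card_pow_sub_X
          (n := (minpoly F x).natDegree)
        have h2 := h1.mp dvd_rfl
        have h3 := (minpoly.dvd_iff).mp h2
        rw [← Fintype.card_eq_nat_card] at h3
        simpa using h3
    refine (Finset.card_le_card hsub).trans (Finset.card_biUnion_le.trans ?_)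
    refine Finset.sum_le_sum ?_
    intro k hk
    refine (Multiset.toFinset_card_le _).trans ((card_roots' _).trans ?_)
    rw [FiniteField.X_pow_card_pow_sub_X_natDegree_eq _ (by
      have := (Finset.mem_Icc.mp hk).1
      omega) Fintype.one_lt_card]
  omega

theorem geom_bound3 (q : ℕ) (hq : 3 ≤ q) (m : ℕ) :
    2 * ∑ k ∈ Finset.Icc 1 (m / 2), q ^ k < q ^ m := by
  have key : ∀ h : ℕ, 2 * ∑ k ∈ Finset.Icc 1 h, q ^ k < q ^ (2 * h) := by
    intro h
    induction h with
    | zero => simp
    | succ h ih =>
      rw [Finset.sum_Icc_succ_top (by omega), mul_add]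
      have h2 : q ^ (2 * (h + 1)) = q ^ (2 * h) * (q * q) := by
        rw [show 2 * (h + 1) = 2 * h + 2 by ring, pow_add]
        ring
      rcases Nat.eq_zero_or_pos h with rfl | hh
      · simp
        nlinarith
      · have h1 : q ^ (h + 1) ≤ q ^ (2 * h) := Nat.pow_le_pow_right (by omega) (by omega)
        rw [h2]
        have h3 : 9 ≤ q * q := by nlinarith
        nlinarith [pow_pos (by omega : 0 < q) (2 * h)]
  exact (key (m / 2)).trans_le (Nat.pow_le_pow_right (by omega) (by omega))

theorem geom_bound2 (q : ℕ) (hq : 2 ≤ q) (m : ℕ) :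
    2 * ∑ k ∈ Finset.Icc 1 (m / 2), q ^ k ≤ q ^ m := by
  have key : ∀ h : ℕ, 2 * ∑ k ∈ Finset.Icc 1 h, q ^ k ≤ q ^ (2 * h) := by
    intro h
    induction h with
    | zero => simp
    | succ h ih =>
      rw [Finset.sum_Icc_succ_top (by omega), mul_add]
      rcases Nat.eq_zero_or_pos h with rfl | hh
      · simp
        nlinarith
      · have h1 : q ^ (h + 1) ≤ q ^ (2 * h) := Nat.pow_le_pow_right (by omega) (by omega)
        have h2 : q ^ (2 * (h + 1)) = q ^ (2 * h) * (q * q) := by
          rw [show 2 * (h + 1) = 2 * h + 2 by ring, pow_add]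
          ring
        rw [h2]
        have h3 : 4 ≤ q * q := by nlinarith
        nlinarith [pow_pos (by omega : 0 < q) (2 * h)]
  exact (key (m / 2)).trans (Nat.pow_le_pow_right (by omega) (by omega))

/-- At least half of the expected number of irreducible polynomials. -/
theorem irr_count (m : ℕ) (hm : 1 ≤ m) :
    Fintype.card F ^ m ≤ 2 * m * (irr F m).ncard := by
  have h1 := irr_count_aux (F := F) m hm
  have h2 := geom_bound2 (Fintype.card F) Fintype.one_lt_card m
  have h3 : 2 * m * (irr F m).ncard = 2 * (m * (irr F m).ncard) := by ring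
  omega

theorem irr_count_strict (m : ℕ) (hm : 1 ≤ m) (hq : 3 ≤ Fintype.card F) :
    Fintype.card F ^ m < 2 * m * (irr F m).ncard := by
  have h1 := irr_count_aux (F := F) m hm
  have h2 := geom_bound3 (Fintype.card F) hq m
  have h3 : 2 * m * (irr F m).ncard = 2 * (m * (irr F m).ncard) := by ring
  omega

end Pool.Agent.helper8.FF
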