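import Pool.Agent.helper8.FF.Cover
import Pool.Agent.helper8.FF.Irr

/-!
Project FF, part 5: the function field model of MP_bb5cc8_nt.
-/

set_option autoImplicit false

namespace Pool.Agent.helper8.FF

open Polynomial

section low

variable {F : Type*} [Field F]

theorem constantCoeff_shift {d : ℕ} (z : Fin d → F) (r : MvPolynomial (Fin d) F) :
    MvPolynomial.constantCoeff (shift z r) = MvPolynomial.eval z r := by
  have key : (MvPolynomial.constantCoeff (R := F) (σ := Fin d)).comp
      ((shift z : MvPolynomial (Fin d) F →ₐ[F] MvPolynomial (Fin d) F) :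
        MvPolynomial (Fin d) F →+* MvPolynomial (Fin d) F) = MvPolynomial.eval z := by
    apply MvPolynomial.ringHom_ext
    · intro c
      simp [shift]
    · intro i
      simp [shift]
  exact congrArg (fun φ => φ r) key

variable [Fintype F]

/-- The bound without multiplicities. -/
theorem small_degree_bound {d D : ℕ} (hd : 1 ≤ d) (hD : D < Fintype.card F)
    (S Z : Finset (Fin d → F)) (hZ : D * Fintype.card F ^ (d - 1) < Z.card)
    (h : ∀ z ∈ Z, ∃ a : Fin d → F, ∀ s : F, (fun i => a i + s * z i) ∈ S) :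
    (d + D).choose d ≤ S.card := by
  classical
  by_contra hlt
  obtain ⟨f, hf, hfd, hfv⟩ := exists_vanish S D 0 (by simpa using not_le.mp hlt)
  set E := f.totalDegree with hE
  set g := MvPolynomial.homogeneousComponent E f with hg
  have hg0 : g ≠ 0 := homogeneousComponent_top_ne_zero f hf
  have hgd : g.totalDegree ≤ E := totalDegree_homogeneousComponent_le E f
  have hzero : ∀ z ∈ Z, MvPolynomial.eval z g = 0 := by
    intro z hz
    obtain ⟨a, ha⟩ := h z hz
    have h1 := top_vanish f E 1 1 le_rfl a z (fun s => hfv _ (ha s)) (by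
      simp only [Nat.add_sub_cancel, one_mul]
      omega) 0 (by simp)
    rw [← MvPolynomial.constantCoeff_eq, constantCoeff_shift] at h1
    exact h1
  have hsz := MvPolynomial.schwartz_zippel_totalDegree hg0 (Finset.univ : Finset F)
  have hq : 0 < Fintype.card F := Fintype.card_pos
  have hcount : Z.card ≤ (Finset.filter (fun x => MvPolynomial.eval x g = 0)
      (Fintype.piFinset fun _ : Fin d => (Finset.univ : Finset F))).card := by
    refine Finset.card_le_card ?_
    intro z hz
    rw [Finset.mem_filter]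
    exact ⟨by simp, hzero z hz⟩
  rw [Finset.card_univ] at hsz
  have hqQ : (0 : ℚ≥0) < (Fintype.card F : ℚ≥0) := by exact_mod_cast hq
  rw [div_le_div_iff₀ (by positivity) hqQ] at hsz
  have hsz' : (Finset.filter (fun x => MvPolynomial.eval x g = 0)
      (Fintype.piFinset fun _ : Fin d => (Finset.univ : Finset F))).card * Fintype.card F ≤
      g.totalDegree * Fintype.card F ^ d := by exact_mod_cast hsz
  have hpow : Fintype.card F ^ d = Fintype.card F ^ (d - 1) * Fintype.card F := by
    rw [← pow_succ, Nat.sub_add_cancel hd]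
  rw [hpow, ← mul_assoc] at hsz'
  have h3 := Nat.le_of_mul_le_mul_right hsz' hq
  have h4 : g.totalDegree * Fintype.card F ^ (d - 1) ≤ D * Fintype.card F ^ (d - 1) :=
    Nat.mul_le_mul_right _ (hgd.trans hfd)
  omega

end low

section directions

variable {F : Type*} [Field F] [Fintype F]

/-- The union of the chosen classes for the moduli in `Q`, among polynomials of degree below `d`. -/
def hitSet (Q : Set F[X]) (a : F[X] → F[X]) (d : ℕ) : Set F[X] :=
  {n | n.degree < d ∧ ∃ p ∈ Q, p ∣ n - a p}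

theorem hitSet_finite (Q : Set F[X]) (a : F[X] → F[X]) (d : ℕ) : (hitSet Q a d).Finite :=
  (finite_degree_lt (F := F) d).subset fun _ h => h.1

/-- The directions `p * j`. -/
def dirSet (Q : Set F[X]) (l : ℕ) : Set F[X] :=
  {n | ∃ p ∈ Q, ∃ j : F[X], j ≠ 0 ∧ j.degree < l ∧ n = p * j}

omit [Fintype F] in
theorem dirSet_degree {Q : Set F[X]} {m l : ℕ} (hQ : Q ⊆ irr F m) {n : F[X]}
    (hn : n ∈ dirSet Q l) : n.degree < ((m + l : ℕ) : WithBot ℕ) := by
  obtain ⟨p, hp, j, hj0, hj, rfl⟩ := hn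
  rw [degree_mul]
  have h1 : p.degree = (m : WithBot ℕ) := by
    rw [degree_eq_natDegree (hQ hp).1.ne_zero, (hQ hp).2.2]
  rw [h1, degree_eq_natDegree hj0]
  rw [degree_eq_natDegree hj0] at hj
  have : j.natDegree < l := by exact_mod_cast hj
  exact_mod_cast (by omega : m + j.natDegree < m + l)

omit [Fintype F] in
theorem dirSet_line {Q : Set F[X]} {m l : ℕ} (hl : 1 ≤ l) (hQ : Q ⊆ irr F m) (a : F[X] → F[X])
    {z : F[X]} (hz : z ∈ dirSet Q l) :
    ∃ b : F[X], b.degree < ((m + l : ℕ) : WithBot ℕ) ∧ ∀ s : F, b + s • z ∈ hitSet Q a (m + l) := by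
  have hdeg := dirSet_degree hQ hz
  obtain ⟨p, hp, j, hj0, hj, rfl⟩ := hz
  have hmon := (hQ hp).1
  have hb : (a p %ₘ p).degree < ((m + l : ℕ) : WithBot ℕ) := by
    refine (degree_modByMonic_lt _ hmon).trans ?_
    rw [degree_eq_natDegree hmon.ne_zero, (hQ hp).2.2]
    exact_mod_cast (by omega : m < m + l)
  refine ⟨a p %ₘ p, hb, fun s => ⟨?_, p, hp, ?_⟩⟩
  · refine lt_of_le_of_lt (degree_add_le _ _) (max_lt hb ?_)
    exact lt_of_le_of_lt (degree_smul_le _ _) hdeg
  · have h1 : a p %ₘ p + p * (a p /ₘ p) = a p := modByMonic_add_div (a p) p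
    have h2 : a p %ₘ p + s • (p * j) - a p = p * (s • j - a p /ₘ p) := by
      rw [mul_sub, mul_smul_comm]
      linear_combination h1
    rw [h2]
    exact dvd_mul_right _ _

theorem dirSet_ncard {Q : Set F[X]} {m l : ℕ} (hlm : l ≤ m) (hQ : Q ⊆ irr F m) :
    (dirSet Q l).ncard = Q.ncard * (Fintype.card F ^ l - 1) := by
  classical
  have hQfin : Q.Finite := (irr_finite (F := F) m).subset hQ
  let J : Set F[X] := {j | j ≠ 0 ∧ j.degree < l}
  have hJfin : J.Finite := (finite_degree_lt (F := F) l).subset fun _ h => h.2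
  have hJcard : J.ncard = Fintype.card F ^ l - 1 := by
    have h1 : J = ({p : F[X] | p.degree < l} : Set F[X]) \ {0} := by
      ext j
      simp only [J, Set.mem_ofPred_eq, Set.mem_sdiff, Set.mem_singleton_iff]
      tauto
    have h2 : (0 : F[X]) ∈ ({p : F[X] | p.degree < l} : Set F[X]) := by
      simp
    rw [h1, Set.ncard_sdiff_singleton_of_mem h2]
    congr 1
    have h3 : ({p : F[X] | p.degree < l} : Set F[X]) = (degreeLT F l : Set F[X]) := by
      ext p
      exact mem_degreeLT.symm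
    rw [h3, ← Nat.card_coe_set_eq]
    have h4 : Nat.card (degreeLT F l) = Nat.card (Fin l → F) :=
      Nat.card_congr (degreeLTEquiv F l).toEquiv
    have h5 : Nat.card ((degreeLT F l : Set F[X])) = Nat.card (degreeLT F l) := rfl
    rw [h5, h4, Nat.card_eq_fintype_card, Fintype.card_fun, Fintype.card_fin]
  have himg : dirSet Q l = (fun x : F[X] × F[X] => x.1 * x.2) '' (Q ×ˢ J) := by
    ext n
    constructor
    · rintro ⟨p, hp, j, hj0, hj, rfl⟩
      exact ⟨(p, j), ⟨hp, hj0, hj⟩, rfl⟩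
    · rintro ⟨⟨p, j⟩, ⟨hp, hj0, hj⟩, rfl⟩
      exact ⟨p, hp, j, hj0, hj, rfl⟩
  have hinj : Set.InjOn (fun x : F[X] × F[X] => x.1 * x.2) (Q ×ˢ J) := by
    rintro ⟨p, j⟩ ⟨hp, hj0, hj⟩ ⟨p', j'⟩ ⟨hp', hj'0, hj'⟩ heq
    simp only at heq hp hp' hj0 hj hj'0 hj'
    have hpp : p = p' := by
      have h1 : p ∣ p' * j' := ⟨j, heq.symm⟩
      rcases ((hQ hp).2.1.prime.dvd_or_dvd h1) with h2 | h2
      · exact eq_of_monic_of_associated (hQ hp).1 (hQ hp').1
          ((hQ hp).2.1.associated_of_dvd (hQ hp').2.1 h2)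
      · exfalso
        have h3 := natDegree_le_of_dvd h2 hj'0
        rw [(hQ hp).2.2] at h3
        rw [degree_eq_natDegree hj'0] at hj'
        have : j'.natDegree < l := by exact_mod_cast hj'
        omega
    subst hpp
    have := mul_left_cancel₀ (hQ hp).1.ne_zero heq
    rw [this]
  rw [himg, hinj.ncard_image, Set.ncard_prod, hJcard]

theorem degreeLT_ncard (l : ℕ) :
    ({p : F[X] | p.degree < l} : Set F[X]).ncard = Fintype.card F ^ l := by
  have h3 : ({p : F[X] | p.degree < l} : Set F[X]) = (degreeLT F l : Set F[X]) := by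
    ext p
    exact mem_degreeLT.symm
  rw [h3, ← Nat.card_coe_set_eq]
  have h4 : Nat.card (degreeLT F l) = Nat.card (Fin l → F) :=
    Nat.card_congr (degreeLTEquiv F l).toEquiv
  have h5 : Nat.card ((degreeLT F l : Set F[X])) = Nat.card (degreeLT F l) := rfl
  rw [h5, h4, Nat.card_eq_fintype_card, Fintype.card_fun, Fintype.card_fin]

theorem irr_ncard_le {Q : Set F[X]} {m : ℕ} (hQ : Q ⊆ irr F m) :
    Q.ncard ≤ Fintype.card F ^ m := by
  rw [← degreeLT_ncard (F := F) m]
  refine Set.ncard_le_ncard_of_injOn (fun p => p - X ^ m) ?_ ?_ (finite_degree_lt (F := F) m)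
  · intro p hp
    have hmon := (hQ hp).1
    have h1 : p.degree = (m : WithBot ℕ) := by
      rw [degree_eq_natDegree hmon.ne_zero, (hQ hp).2.2]
    have := degree_sub_lt_left (p := p) (q := X ^ m) (by rw [h1, degree_X_pow]) hmon.ne_zero
      (by rw [hmon.leadingCoeff, (monic_X_pow m).leadingCoeff])
    rw [h1] at this
    exact this
  · intro p _ p' _ h
    exact sub_left_injective h

variable {V : Type*} [AddCommGroup V] [Module F V] [Fintype V] {d : ℕ}

omit [Fintype F] in
theorem transport_card (ψ : degreeLT F d ≃ₗ[F] V) (A : Set F[X])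
    (hA : ∀ n ∈ A, n.degree < d) [DecidablePred fun e : V => ((ψ.symm e : degreeLT F d) : F[X]) ∈ A] :
    (Finset.univ.filter fun e : V => ((ψ.symm e : degreeLT F d) : F[X]) ∈ A).card = A.ncard := by
  classical
  rw [← Set.ncard_coe_finset]
  refine Set.ncard_congr (fun e _ => ((ψ.symm e : degreeLT F d) : F[X])) ?_ ?_ ?_
  · intro e he
    simpa using he
  · intro e e' _ _ h
    exact ψ.symm.injective (Subtype.ext h)
  · intro n hn
    refine ⟨ψ ⟨n, mem_degreeLT.mpr (hA n hn)⟩, ?_, ?_⟩
    · simpa using hn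
    · simp

omit [Fintype F] [Fintype V] in
theorem transport_line (ψ : degreeLT F d ≃ₗ[F] V) (A B : Set F[X])
    (h : ∀ z ∈ A, ∃ b : F[X], b.degree < d ∧ ∀ s : F, b + s • z ∈ B)
    (z : V) (hz : ((ψ.symm z : degreeLT F d) : F[X]) ∈ A) :
    ∃ a : V, ∀ s : F, ((ψ.symm (a + s • z) : degreeLT F d) : F[X]) ∈ B := by
  obtain ⟨b, hb, hb2⟩ := h _ hz
  refine ⟨ψ ⟨b, mem_degreeLT.mpr hb⟩, fun s => ?_⟩
  rw [map_add, map_smul, LinearEquiv.symm_apply_apply]
  exact hb2 s

end directions

section main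

variable {F : Type*} [Field F] [Fintype F]

theorem rpow_identity (d : ℕ) :
    ((Fintype.card F : ℝ) ^ d) ^ (1 - Real.log 2 / Real.log (Fintype.card F)) =
      (Fintype.card F : ℝ) ^ d / 2 ^ d := by
  have hq : (1 : ℝ) < Fintype.card F := by exact_mod_cast Fintype.one_lt_card
  have hq0 : (0 : ℝ) < Fintype.card F := by linarith
  have hlog : 0 < Real.log (Fintype.card F) := Real.log_pos hq
  rw [Real.rpow_sub (pow_pos hq0 d), Real.rpow_one]
  congr 1
  rw [Real.rpow_def_of_pos (pow_pos hq0 d), Real.log_pow]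
  have : (d : ℝ) * Real.log (Fintype.card F) * (Real.log 2 / Real.log (Fintype.card F)) =
      Real.log 2 * d := by
    field_simp
  rw [this, Real.exp_mul, Real.exp_log (by norm_num), Real.rpow_natCast]

theorem main_subset (m d : ℕ) (hm : 1 ≤ m) (hmd : m < d) (hd : d ≤ 2 * m) (Q : Set F[X])
    (hQ : Q ⊆ irr F m) (a : F[X] → F[X]) :
    (Q.ncard : ℝ) / (Fintype.card F : ℝ) ^ m *
        ((Fintype.card F : ℝ) ^ d) ^ (1 - Real.log 2 / Real.log (Fintype.card F)) /
        (3 * Real.log ((Fintype.card F : ℝ) ^ d)) ≤ (hitSet Q a d).ncard := by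
  classical
  have hq2 : 2 ≤ Fintype.card F := Fintype.one_lt_card
  have hqr : (2 : ℝ) ≤ Fintype.card F := by exact_mod_cast hq2
  have hq0 : (0 : ℝ) < Fintype.card F := by linarith
  have hlog1 : 1 ≤ Real.log ((Fintype.card F : ℝ) ^ d) := by
    rw [Real.le_log_iff_exp_le (by positivity)]
    have h4 : Real.exp 1 ≤ 4 := by
      have := Real.exp_one_lt_d9
      linarith
    refine h4.trans ?_
    calc (4 : ℝ) = 2 ^ 2 := by norm_num
      _ ≤ 2 ^ d := pow_le_pow_right₀ (by norm_num) (by omega)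
      _ ≤ (Fintype.card F : ℝ) ^ d := pow_le_pow_left₀ (by norm_num) hqr d
  have hQfin : Q.Finite := (irr_finite (F := F) m).subset hQ
  rcases Set.eq_empty_or_nonempty Q with rfl | hQne
  · rw [Set.ncard_empty]
    simp
  have hQpos : 0 < Q.ncard := (Set.ncard_pos hQfin).mpr hQne
  have hQr : (0 : ℝ) < Q.ncard := by exact_mod_cast hQpos
  obtain ⟨l, rfl⟩ : ∃ l, d = m + l := ⟨d - m, by omega⟩
  have hl : 1 ≤ l := by omega
  have hlm : l ≤ m := by omega
  obtain ⟨p, hp⟩ := CharP.exists F
  have : Fact (Nat.Prime p) := ⟨CharP.char_is_prime F p⟩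
  have : NeZero (m + l) := ⟨by omega⟩
  let E := FiniteField.Extension F p (m + l)
  have hEfin : Fintype E := Fintype.ofFinite E
  have hrank : Module.finrank F E = m + l := FiniteField.finrank_extension F p (m + l)
  have hfinE : FiniteDimensional F E := inferInstance
  have hfinV : FiniteDimensional F (degreeLT F (m + l)) :=
    Module.Finite.equiv (degreeLTEquiv F (m + l)).symm
  let ψ : degreeLT F (m + l) ≃ₗ[F] E := LinearEquiv.ofFinrankEq _ _ (by
    rw [hrank, (degreeLTEquiv F (m + l)).finrank_eq, Module.finrank_fin_fun])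
  let S : Finset E := Finset.univ.filter fun e =>
    ((ψ.symm e : degreeLT F (m + l)) : F[X]) ∈ hitSet Q a (m + l)
  let Z : Finset E := Finset.univ.filter fun e =>
    ((ψ.symm e : degreeLT F (m + l)) : F[X]) ∈ dirSet Q l
  have hScard : S.card = (hitSet Q a (m + l)).ncard :=
    transport_card ψ _ (fun n hn => hn.1)
  have hZcard : Z.card = Q.ncard * (Fintype.card F ^ l - 1) := by
    rw [← dirSet_ncard hlm hQ]
    exact transport_card ψ _ (fun n hn => dirSet_degree hQ hn)
  have hql : 1 < Fintype.card F ^ l := Nat.one_lt_pow (by omega) (by omega)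
  have hZpos : 0 < Z.card := by
    rw [hZcard]
    exact Nat.mul_pos hQpos (by omega)
  have hZ0 : (0 : E) ∉ Z := by
    intro h0
    have h1 := (Finset.mem_filter.mp h0).2
    rw [map_zero] at h1
    obtain ⟨p', hp', j, hj0, _, hpj⟩ := h1
    have h2 : p' * j = 0 := by
      rw [← hpj]
      rfl
    rcases mul_eq_zero.mp h2 with h3 | h3
    · exact (hQ hp').1.ne_zero h3
    · exact hj0 h3
  have hline : ∀ z ∈ Z, ∃ b : E, ∀ s : F, b + s • z ∈ S := by
    intro z hz
    obtain ⟨b, hb⟩ := transport_line ψ (dirSet Q l) (hitSet Q a (m + l))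
      (fun z hz => dirSet_line hl hQ a hz) z (Finset.mem_filter.mp hz).2
    exact ⟨b, fun s => Finset.mem_filter.mpr ⟨Finset.mem_univ _, hb s⟩⟩
  have hk := kakeya_dirs E hrank S Z (Finset.card_pos.mp hZpos) hZ0 hline
  rw [hScard] at hk
  set q : ℝ := (Fintype.card F : ℝ) with hqdef
  have hZr : (Z.card : ℝ) = Q.ncard * (q ^ l - 1) := by
    rw [hZcard]
    push_cast [Nat.cast_sub hql.le]
    ring
  have hqlr : (1 : ℝ) < q ^ l := by
    have : ((1 : ℕ) : ℝ) < ((Fintype.card F ^ l : ℕ) : ℝ) := by exact_mod_cast hql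
    simpa using this
  have hqml : q ^ (m + l) = q ^ m * q ^ l := pow_add q m l
  have hqm0 : 0 < q ^ m := pow_pos hq0 m
  have hql2 : 2 ≤ q ^ l := by
    calc (2 : ℝ) = 2 ^ 1 := by norm_num
      _ ≤ 2 ^ l := pow_le_pow_right₀ (by norm_num) hl
      _ ≤ q ^ l := pow_le_pow_left₀ (by norm_num) hqr l
  have hratio : (q ^ (m + l) - 1) / Z.card ≤ 2 * (q ^ m / Q.ncard) := by
    rw [hZr, hqml, div_le_iff₀ (mul_pos hQr (by linarith))]
    have : 2 * (q ^ m / Q.ncard) * (Q.ncard * (q ^ l - 1)) = 2 * (q ^ m * q ^ l) - 2 * q ^ m := by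
      field_simp
    rw [this]
    nlinarith
  have hQle : (Q.ncard : ℝ) ≤ q ^ m := by
    have := irr_ncard_le hQ
    rw [hqdef]
    exact_mod_cast this
  have hone : 1 ≤ q ^ m / Q.ncard := by
    rw [one_le_div hQr]
    exact hQle
  have hfac : (q ^ (m + l) - 1) / Z.card * Real.log (q ^ (m + l)) + 1 ≤
      q ^ m / Q.ncard * (3 * Real.log (q ^ (m + l))) := by
    have h1 := mul_le_mul_of_nonneg_right hratio (by linarith : 0 ≤ Real.log (q ^ (m + l)))
    nlinarith
  have hhit : (0 : ℝ) ≤ (hitSet Q a (m + l)).ncard := by positivity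
  have hk2 : q ^ (m + l) ≤ 2 ^ (m + l) * (q ^ m / Q.ncard * (3 * Real.log (q ^ (m + l)))) *
      (hitSet Q a (m + l)).ncard := by
    refine hk.trans ?_
    have h2 : (0 : ℝ) < 2 ^ (m + l) := by positivity
    gcongr
  rw [rpow_identity, div_le_iff₀ (by linarith), div_mul_div_comm, div_le_iff₀ (by positivity)]
  have h3 : 2 ^ (m + l) * (q ^ m / Q.ncard * (3 * Real.log (q ^ (m + l)))) *
      (hitSet Q a (m + l)).ncard * Q.ncard =
      (hitSet Q a (m + l)).ncard * (3 * Real.log (q ^ (m + l))) * (q ^ m * 2 ^ (m + l)) := by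
    field_simp
  have h4 := mul_le_mul_of_nonneg_right hk2 hQr.le
  rw [h3] at h4
  linarith

theorem main_all (m d : ℕ) (hm : 1 ≤ m) (hmd : m < d) (hd : d ≤ 2 * m) (a : F[X] → F[X]) :
    ((Fintype.card F : ℝ) ^ d) ^ (1 - Real.log 2 / Real.log (Fintype.card F)) /
        (6 * m * Real.log ((Fintype.card F : ℝ) ^ d)) ≤ (hitSet (irr F m) a d).ncard := by
  have hq2 : 2 ≤ Fintype.card F := Fintype.one_lt_card
  have hqr : (2 : ℝ) ≤ Fintype.card F := by exact_mod_cast hq2
  have hlog : 0 < Real.log ((Fintype.card F : ℝ) ^ d) := by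
    apply Real.log_pos
    exact one_lt_pow₀ (by linarith) (by omega)
  have hmr : (0 : ℝ) < m := by exact_mod_cast (by omega : 0 < m)
  have h := main_subset m d hm hmd hd (irr F m) (Set.Subset.refl _) a
  have hc : (1 : ℝ) / (2 * m) ≤ ((irr F m).ncard : ℝ) / (Fintype.card F : ℝ) ^ m := by
    rw [div_le_div_iff₀ (by positivity) (by positivity)]
    have := irr_count (F := F) m hm
    have h2 : ((Fintype.card F ^ m : ℕ) : ℝ) ≤ ((2 * m * (irr F m).ncard : ℕ) : ℝ) := by
      exact_mod_cast this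
    push_cast at h2
    linarith
  refine le_trans ?_ h
  have hx : 0 ≤ ((Fintype.card F : ℝ) ^ d) ^ (1 - Real.log 2 / Real.log (Fintype.card F)) := by
    positivity
  have h5 : ((Fintype.card F : ℝ) ^ d) ^ (1 - Real.log 2 / Real.log (Fintype.card F)) /
        (6 * m * Real.log ((Fintype.card F : ℝ) ^ d)) =
      1 / (2 * m) * ((Fintype.card F : ℝ) ^ d) ^ (1 - Real.log 2 / Real.log (Fintype.card F)) /
        (3 * Real.log ((Fintype.card F : ℝ) ^ d)) := by
    field_simp
    ring
  rw [h5]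
  gcongr

theorem main_fixed (m d : ℕ) (hm : 1 ≤ m) (hmd : m < d) (hd : d ≤ 2 * m) (a : F[X] → F[X]) :
    Fintype.card F ^ d ≤ (2 * m) ^ d * d.factorial * (hitSet (irr F m) a d).ncard := by
  classical
  have hq2 : 2 ≤ Fintype.card F := Fintype.one_lt_card
  obtain ⟨l, rfl⟩ : ∃ l, d = m + l := ⟨d - m, by omega⟩
  have hl : 1 ≤ l := by omega
  have hlm : l ≤ m := by omega
  let ψ : degreeLT F (m + l) ≃ₗ[F] (Fin (m + l) → F) := degreeLTEquiv F (m + l)
  let S : Finset (Fin (m + l) → F) := Finset.univ.filter fun e =>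
    ((ψ.symm e : degreeLT F (m + l)) : F[X]) ∈ hitSet (irr F m) a (m + l)
  let Z : Finset (Fin (m + l) → F) := Finset.univ.filter fun e =>
    ((ψ.symm e : degreeLT F (m + l)) : F[X]) ∈ dirSet (irr F m) l
  have hScard : S.card = (hitSet (irr F m) a (m + l)).ncard :=
    transport_card ψ _ (fun n hn => hn.1)
  have hZcard : Z.card = (irr F m).ncard * (Fintype.card F ^ l - 1) := by
    rw [← dirSet_ncard hlm (Set.Subset.refl _)]
    exact transport_card ψ _ (fun n hn => dirSet_degree (Set.Subset.refl _) hn)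
  have hline : ∀ z ∈ Z, ∃ b : Fin (m + l) → F, ∀ s : F, (fun i => b i + s * z i) ∈ S := by
    intro z hz
    obtain ⟨b, hb⟩ := transport_line ψ (dirSet (irr F m) l) (hitSet (irr F m) a (m + l))
      (fun z hz => dirSet_line hl (Set.Subset.refl _) a hz) z (Finset.mem_filter.mp hz).2
    refine ⟨b, fun s => Finset.mem_filter.mpr ⟨Finset.mem_univ _, ?_⟩⟩
    exact hb s
  set q := Fintype.card F with hq
  set D := (q - 1) / (2 * m) with hD
  have hDq : D < q := by
    have : D ≤ q - 1 := Nat.div_le_self _ _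
    omega
  have hql : 1 < q ^ l := Nat.one_lt_pow (by omega) (by omega)
  have hcount := irr_count (F := F) m hm
  rw [← hq] at hcount
  have hirrpos : 0 < (irr F m).ncard := by
    by_contra h0
    have : (irr F m).ncard = 0 := by omega
    rw [this, mul_zero] at hcount
    have := pow_pos (by omega : 0 < q) m
    omega
  have hZ : D * q ^ (m + l - 1) < Z.card := by
    rw [hZcard]
    rcases Nat.eq_zero_or_pos D with h0 | hDpos
    · rw [h0, zero_mul]
      exact Nat.mul_pos hirrpos (by omega)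
    · have hDm : D * (2 * m) ≤ q - 1 := Nat.div_mul_le_self _ _
      have hq3 : 3 ≤ q := by
        have : 1 * (2 * 1) ≤ D * (2 * m) := Nat.mul_le_mul hDpos (by omega)
        omega
      have hstrict := irr_count_strict (F := F) m hm hq3
      rw [← hq] at hstrict
      have hpow : q ^ (m + l - 1) = q ^ m * q ^ (l - 1) := by
        rw [← pow_add]
        congr 1
        omega
      have hpl : q ^ l = q ^ (l - 1) * q := by
        rw [← pow_succ, Nat.sub_add_cancel hl]
      have hl1 : 1 ≤ q ^ (l - 1) := Nat.one_le_pow _ _ (by omega)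
      have hkey : (q - 1) * q ^ (l - 1) ≤ q ^ l - 1 := by
        rw [hpl, Nat.sub_mul, one_mul, mul_comm q]
        omega
      have h1 : (2 * m) * (D * q ^ (m + l - 1)) ≤ (q ^ m) * (q ^ l - 1) := by
        calc (2 * m) * (D * q ^ (m + l - 1)) = (D * (2 * m)) * q ^ (m + l - 1) := by ring
          _ ≤ (q - 1) * q ^ (m + l - 1) := Nat.mul_le_mul_right _ hDm
          _ = q ^ m * ((q - 1) * q ^ (l - 1)) := by rw [hpow]; ring
          _ ≤ q ^ m * (q ^ l - 1) := Nat.mul_le_mul_left _ hkey
      have h2 : q ^ m * (q ^ l - 1) < (2 * m * (irr F m).ncard) * (q ^ l - 1) :=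
        Nat.mul_lt_mul_of_pos_right hstrict (by omega)
      have h3 : (2 * m) * (D * q ^ (m + l - 1)) < (2 * m) * ((irr F m).ncard * (q ^ l - 1)) := by
        rw [← mul_assoc (2 * m) _ (q ^ l - 1)]
        exact lt_of_le_of_lt h1 h2
      exact Nat.lt_of_mul_lt_mul_left h3
  have hmain := small_degree_bound (by omega) hDq S Z hZ hline
  rw [hScard] at hmain
  have hD1 : q ≤ 2 * m * (D + 1) := by
    have := Nat.lt_mul_div_succ (q - 1) (by omega : 0 < 2 * m)
    rw [← hD] at this
    omega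
  have h1 : (D + 1) ^ (m + l) ≤ (m + l).factorial * ((m + l) + D).choose (m + l) := by
    rw [add_comm (m + l) D, ← Nat.ascFactorial_eq_factorial_mul_choose]
    exact Nat.pow_succ_le_ascFactorial (D + 1) (m + l)
  calc q ^ (m + l) ≤ (2 * m * (D + 1)) ^ (m + l) := Nat.pow_le_pow_left hD1 _
    _ = (2 * m) ^ (m + l) * (D + 1) ^ (m + l) := by rw [mul_pow]
    _ ≤ (2 * m) ^ (m + l) * ((m + l).factorial * ((m + l) + D).choose (m + l)) :=
        Nat.mul_le_mul_left _ h1
    _ ≤ (2 * m) ^ (m + l) * ((m + l).factorial * (hitSet (irr F m) a (m + l)).ncard) :=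
        Nat.mul_le_mul_left _ (Nat.mul_le_mul_left _ hmain)
    _ = _ := by ring

end main

end Pool.Agent.helper8.FF
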