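import Pool.Agent.helper8.FF.Line
import Pool.Agent.helper57.PK.Count

/-!
Project FF, part 2: the multiplicity Schwartz-Zippel lemma on the whole grid and the bound
`q ^ d ≤ 2 ^ d * #K` for a set `K` of `F ^ d` with a line in every direction (method of
multiplicities, Dvir, Kopparty, Saraf and Sudan).
-/

set_option autoImplicit false

namespace Pool.Agent.helper8.FF

open MvPolynomial

variable {F : Type*} [Field F]

theorem finrank_restrict (n D : ℕ) :
    Module.finrank F (restrictTotalDegree (Fin n) F D) = (n + D).choose n := by
  rw [← Pool.Agent.helper67.PK.h57_card_exponents]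
  exact Module.finrank_eq_nat_card_basis (basisRestrictSupport F _)

theorem exists_vanish {d : ℕ} (S : Finset (Fin d → F)) (E M : ℕ)
    (h : S.card * (d + M).choose d < (d + E).choose d) :
    ∃ f : MvPolynomial (Fin d) F, f ≠ 0 ∧ f.totalDegree ≤ E ∧ ∀ x ∈ S, VanishAt (M + 1) f x := by
  classical
  let W : Set (Fin d →₀ ℕ) := {s | (s.sum fun _ e => e) ≤ M}
  have hWcard : Nat.card W = (d + M).choose d := Pool.Agent.helper67.PK.h57_card_exponents d M
  have hWfin : Finite W := by
    apply Nat.finite_of_card_ne_zero
    rw [hWcard]
    exact (Nat.choose_pos (by omega)).ne'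
  have : Fintype W := Fintype.ofFinite W
  let L : restrictTotalDegree (Fin d) F E →ₗ[F] (S × W → F) :=
    { toFun := fun f x => coeff x.2.1 (shift x.1.1 (f : MvPolynomial (Fin d) F))
      map_add' := fun f g => by
        funext x
        simp
      map_smul' := fun c f => by
        funext x
        simp }
  have hfin : FiniteDimensional F (restrictTotalDegree (Fin d) F E) := inferInstance
  have hlt : Module.finrank F (S × W → F) < Module.finrank F (restrictTotalDegree (Fin d) F E) := by
    rw [finrank_restrict, Module.finrank_fintype_fun_eq_card, Fintype.card_prod, Fintype.card_coe,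
      Fintype.card_eq_nat_card, hWcard]
    exact h
  obtain ⟨f, hf, hf0⟩ := (Submodule.ne_bot_iff _).mp (LinearMap.ker_ne_bot_of_finrank_lt (f := L) hlt)
  refine ⟨f, fun h0 => hf0 (Subtype.ext h0), (mem_restrictTotalDegree _ _ _).mp f.2, ?_⟩
  intro x hx w hw
  have hwW : w ∈ W := by
    change (w.sum fun _ e => e) ≤ M
    have : w.degree = w.sum fun _ e => e := by
      rw [Finsupp.sum_fintype _ _ (fun _ => rfl), Finsupp.degree_eq_sum]
    omega
  have := congrFun (LinearMap.mem_ker.mp hf) (⟨x, hx⟩, ⟨w, hwW⟩)
  exact this

theorem finSucc_C {n : ℕ} (b : F) :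
    finSuccEquiv F n (C b) = Polynomial.C (C b) := by
  rw [finSuccEquiv_apply]
  simp

/-- shift in the first variable and the others -/
theorem finSucc_shift {n : ℕ} (b : F) (a : Fin n → F) (f : MvPolynomial (Fin (n + 1)) F) :
    finSuccEquiv F n (shift (Fin.cons b a) f) =
      ((finSuccEquiv F n f).map ((shift a : MvPolynomial (Fin n) F →ₐ[F] MvPolynomial (Fin n) F) :
        MvPolynomial (Fin n) F →+* MvPolynomial (Fin n) F)).comp
        (Polynomial.X + Polynomial.C (C b)) := by
  have key : ((finSuccEquiv F n).toAlgHom.comp (shift (Fin.cons b a))) =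
      ((Polynomial.aeval (R := MvPolynomial (Fin n) F)
        (Polynomial.X + Polynomial.C (C b : MvPolynomial (Fin n) F))).restrictScalars F).comp
        ((Polynomial.mapAlgHom (shift a)).comp (finSuccEquiv F n).toAlgHom) := by
    apply MvPolynomial.algHom_ext
    intro i
    refine Fin.cases ?_ (fun j => ?_) i
    · simp [shift, finSuccEquiv_X_zero, finSucc_C]
    · simp [shift, finSuccEquiv_X_succ, finSucc_C]
  have := congrArg (fun φ => φ f) key
  simpa [Polynomial.aeval_def, Polynomial.comp, Polynomial.eval₂_eq_eval_map] using this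

theorem schwartz_zippel_mult [Fintype F] : ∀ (n J : ℕ) (f : MvPolynomial (Fin n) F), f ≠ 0 →
    (∀ a, VanishAt J f a) → J * Fintype.card F ≤ f.totalDegree := by
  classical
  intro n
  induction n with
  | zero =>
    intro J f hf h
    rcases Nat.eq_zero_or_pos J with rfl | hJ
    · simp
    · exfalso
      apply hf
      have h0 := h (fun i => 0) 0 (by simpa using hJ)
      obtain ⟨c, rfl⟩ := C_surjective (Fin 0) f
      rw [shift, aeval_C] at h0
      have : c = 0 := by simpa using h0
      rw [this, map_zero]
  | succ n ih =>
    intro J f hf h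
    set P := finSuccEquiv F n f with hP
    have hP0 : P ≠ 0 := by
      rw [hP]
      exact (map_ne_zero_iff _ (finSuccEquiv F n).injective).mpr hf
    set t := P.natDegree with ht
    have hlead : P.coeff t ≠ 0 := by
      rw [ht]
      exact Polynomial.leadingCoeff_ne_zero.mpr hP0
    have hdeg := totalDegree_coeff_finSuccEquiv_add_le f t hlead
    rw [← hP] at hdeg
    have hv : ∀ a : Fin n → F, VanishAt (J - t / Fintype.card F) (P.coeff t) a := by
      intro a w hw
      by_contra hne
      -- the univariate polynomial
      let φ : MvPolynomial (Fin n) F →ₗ[F] F :=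
        { toFun := fun g => coeff w (shift a g)
          map_add' := by intro x y; simp
          map_smul' := by intro c x; simp }
      set g : Polynomial F := ∑ i ∈ Finset.range (t + 1), Polynomial.monomial i (φ (P.coeff i)) with hg
      have hgdeg : g.natDegree ≤ t := by
        refine Polynomial.natDegree_sum_le_of_forall_le _ _ ?_
        intro i hi
        exact (Polynomial.natDegree_monomial_le _).trans (by simpa [Nat.lt_succ_iff] using hi)
      have hgcoeff : g.coeff t = φ (P.coeff t) := by
        rw [hg, Polynomial.finsetSum_coeff]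
        rw [Finset.sum_eq_single t]
        · simp
        · intro i _ hi
          rw [Polynomial.coeff_monomial, if_neg hi]
        · intro ht'
          exact absurd (Finset.mem_range.mpr (Nat.lt_succ_self t)) ht'
      have hg0 : g ≠ 0 := by
        intro h0
        rw [h0, Polynomial.coeff_zero] at hgcoeff
        exact hne hgcoeff.symm
      have hdvd : ∀ b : F, (Polynomial.X - Polynomial.C b) ^ (J - w.degree) ∣ g := by
        intro b
        have hcoef : ∀ i, (g.comp (Polynomial.X + Polynomial.C b)).coeff i =
            coeff (w.cons i) (shift (Fin.cons b a) f) := by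
          intro i
          rw [← finSuccEquiv_coeff_coeff, finSucc_shift, ← hP]
          have hPs : P = ∑ k ∈ Finset.range (t + 1), Polynomial.monomial k (P.coeff k) :=
            P.as_sum_range
          conv_rhs => rw [hPs]
          rw [hg]
          simp only [Polynomial.map_sum, Polynomial.sum_comp, Polynomial.finsetSum_coeff,
            coeff_sum]
          refine Finset.sum_congr rfl ?_
          intro k _
          rw [Polynomial.map_monomial, Polynomial.monomial_comp, Polynomial.monomial_comp,
            Polynomial.coeff_C_mul, Polynomial.coeff_C_mul, Polynomial.coeff_X_add_C_pow,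
            Polynomial.coeff_X_add_C_pow]
          have hc : ((C b : MvPolynomial (Fin n) F) ^ (k - i) * ((k.choose i : ℕ) : MvPolynomial (Fin n) F))
              = C (b ^ (k - i) * ((k.choose i : ℕ) : F)) := by
            rw [map_mul, map_pow, map_natCast]
          rw [hc, mul_comm _ (C _), coeff_C_mul, mul_comm _ (b ^ _ * _)]
          rfl
        have hX : Polynomial.X ^ (J - w.degree) ∣ g.comp (Polynomial.X + Polynomial.C b) := by
          rw [Polynomial.X_pow_dvd_iff]
          intro i hi
          rw [hcoef i]
          apply h
          have : (Finsupp.cons i w).degree = i + w.degree := by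
            rw [Finsupp.degree_eq_sum, Finsupp.degree_eq_sum, Fin.sum_univ_succ]
            simp
          rw [this]
          omega
        obtain ⟨r, hr⟩ := hX
        refine ⟨r.comp (Polynomial.X - Polynomial.C b), ?_⟩
        have := congrArg (fun p => p.comp (Polynomial.X - Polynomial.C b)) hr
        simp only [Polynomial.comp_assoc, Polynomial.mul_comp, Polynomial.pow_comp,
          Polynomial.X_comp, Polynomial.add_comp, Polynomial.C_comp, sub_add_cancel,
          Polynomial.comp_X] at this
        exact this
      have hlt : g.natDegree < (J - w.degree) * Fintype.card F := by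
        refine lt_of_le_of_lt hgdeg ?_
        have hq : 0 < Fintype.card F := Fintype.card_pos
        have h1 : t / Fintype.card F + 1 ≤ J - w.degree := by omega
        calc t < (t / Fintype.card F + 1) * Fintype.card F := by
              rw [mul_comm]
              exact Nat.lt_mul_div_succ t hq
          _ ≤ (J - w.degree) * Fintype.card F := Nat.mul_le_mul_right _ h1
      exact hg0 (eq_zero_of_dvd_all _ g hlt hdvd)
    have hind := ih _ (P.coeff t) hlead hv
    have hq : 0 < Fintype.card F := Fintype.card_pos
    have h3 : t / Fintype.card F * Fintype.card F ≤ t := Nat.div_mul_le_self t _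
    have h4 : J * Fintype.card F ≤ (J - t / Fintype.card F) * Fintype.card F +
        t / Fintype.card F * Fintype.card F := by
      rw [← add_mul]
      exact Nat.mul_le_mul_right _ (by omega)
    omega

theorem homogeneousComponent_top_ne_zero {d : ℕ} (f : MvPolynomial (Fin d) F) (hf : f ≠ 0) :
    homogeneousComponent f.totalDegree f ≠ 0 := by
  classical
  obtain ⟨κ, hκ, hκd⟩ : ∃ κ ∈ f.support, κ.degree = f.totalDegree := by
    have hne : f.support.Nonempty := support_nonempty.mpr hf
    obtain ⟨κ, hκ, h⟩ := Finset.exists_mem_eq_sup f.support hne (fun s => s.sum fun _ e => e)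
    refine ⟨κ, hκ, ?_⟩
    rw [totalDegree, h, Finsupp.degree_eq_sum, Finsupp.sum_fintype _ _ (fun _ => rfl)]
  intro h0
  have := coeff_homogeneousComponent f.totalDegree f κ
  rw [h0, coeff_zero, if_pos hκd] at this
  exact (mem_support_iff.mp hκ) this.symm

theorem totalDegree_homogeneousComponent_le {d : ℕ} (n : ℕ) (f : MvPolynomial (Fin d) F) :
    (homogeneousComponent n f).totalDegree ≤ n :=
  (homogeneousComponent_isHomogeneous n f).totalDegree_le

theorem kakeya_step [Fintype F] {d : ℕ} (K : Finset (Fin d → F))
    (hK : ∀ v : Fin d → F, ∃ a : Fin d → F, ∀ s : F, (fun i => a i + s * v i) ∈ K)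
    (k : ℕ) (hk : 1 ≤ k) :
    (d + (k * Fintype.card F - 1)).choose d ≤ K.card * (d + (2 * k - 2)).choose d := by
  by_contra hlt
  obtain ⟨f, hf, hfd, hfv⟩ := exists_vanish K (k * Fintype.card F - 1) (2 * k - 2) (not_le.mp hlt)
  have hq : 0 < Fintype.card F := Fintype.card_pos
  have hkq : 0 < k * Fintype.card F := Nat.mul_pos hk hq
  have hv : ∀ v, VanishAt k (homogeneousComponent f.totalDegree f) v := by
    intro v
    obtain ⟨a, ha⟩ := hK v
    refine top_vanish f f.totalDegree (2 * k - 2 + 1) k le_rfl a v (fun s => hfv _ (ha s)) ?_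
    have : 2 * k - 2 + 1 + 1 - k = k := by omega
    rw [this]
    omega
  have h1 := schwartz_zippel_mult d k _ (homogeneousComponent_top_ne_zero f hf) hv
  have h2 := totalDegree_homogeneousComponent_le f.totalDegree f
  omega

theorem kakeya [Fintype F] {d : ℕ} (K : Finset (Fin d → F))
    (hK : ∀ v : Fin d → F, ∃ a : Fin d → F, ∀ s : F, (fun i => a i + s * v i) ∈ K) :
    Fintype.card F ^ d ≤ 2 ^ d * K.card := by
  have hq : 0 < Fintype.card F := Fintype.card_pos
  have hKpos : 0 < K.card := by
    obtain ⟨a, ha⟩ := hK 0
    exact Finset.card_pos.mpr ⟨_, ha 0⟩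
  apply Pool.Agent.helper67.PK.h57_limit (K := d)
  intro k
  rcases Nat.eq_zero_or_pos k with rfl | hk
  · rcases Nat.eq_zero_or_pos d with rfl | hd
    · simpa using hKpos
    · rw [mul_zero, zero_pow hd.ne']
      exact Nat.zero_le _
  · have h1 := kakeya_step K hK k hk
    have hkq : 0 < k * Fintype.card F := Nat.mul_pos hk hq
    have h2 : (k * Fintype.card F) ^ d ≤ d.factorial * (d + (k * Fintype.card F - 1)).choose d := by
      rw [add_comm d, ← Nat.ascFactorial_eq_factorial_mul_choose]
      have := Nat.pow_succ_le_ascFactorial (k * Fintype.card F - 1 + 1) d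
      rwa [Nat.sub_add_cancel hkq] at this ⊢
    have h3 : d.factorial * (d + (2 * k - 2)).choose d ≤ (d + (2 * k - 2)) ^ d :=
      Pool.Agent.helper67.PK.h57_choose_upper d (2 * k - 2)
    calc (Fintype.card F * k) ^ d = (k * Fintype.card F) ^ d := by rw [mul_comm]
      _ ≤ d.factorial * (d + (k * Fintype.card F - 1)).choose d := h2
      _ ≤ d.factorial * (K.card * (d + (2 * k - 2)).choose d) := Nat.mul_le_mul_left _ h1
      _ = K.card * (d.factorial * (d + (2 * k - 2)).choose d) := by ring
      _ ≤ K.card * (d + (2 * k - 2)) ^ d := Nat.mul_le_mul_left _ h3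
      _ ≤ K.card * (2 * (k + d)) ^ d :=
          Nat.mul_le_mul_left _ (Nat.pow_le_pow_left (by omega) d)
      _ = 2 ^ d * K.card * (k + d) ^ d := by rw [mul_pow]; ring

end Pool.Agent.helper8.FF
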