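import Mathlib

/-!
Project FF (function field model of MP_bb5cc8_nt), part 1: restriction of polynomials with
prescribed vanishing order to lines.
-/

set_option autoImplicit false

namespace Pool.Agent.helper8.FF

open MvPolynomial

section defs

variable {σ R : Type*} [CommRing R]

/-- Taylor shift. -/
noncomputable def shift (a : σ → R) : MvPolynomial σ R →ₐ[R] MvPolynomial σ R :=
  aeval (fun i => X i + C (a i))

/-- `f` vanishes to order at least `M` at `a`. -/
def VanishAt (M : ℕ) (f : MvPolynomial σ R) (a : σ → R) : Prop :=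
  ∀ w : σ →₀ ℕ, w.degree < M → coeff w (shift a f) = 0

end defs

section preds

variable {σ F : Type*} [Field F]

/-- coefficients of degree at most `n` in the parameter, with coefficients at `n` given by `g'`. -/
def Top (n : ℕ) (g : MvPolynomial σ (Polynomial F)) (g' : MvPolynomial σ F) : Prop :=
  ∀ w, (coeff w g).natDegree ≤ n ∧ (coeff w g).coeff n = coeff w g'

theorem Top.mul {n n' : ℕ} {g h : MvPolynomial σ (Polynomial F)} {g' h' : MvPolynomial σ F}
    (H : Top n g g') (K : Top n' h h') : Top (n + n') (g * h) (g' * h') := by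
  classical
  intro w
  rw [coeff_mul, coeff_mul]
  constructor
  · refine Polynomial.natDegree_sum_le_of_forall_le _ _ ?_
    intro x _
    exact Polynomial.natDegree_mul_le_of_le (H x.1).1 (K x.2).1
  · rw [Polynomial.finsetSum_coeff]
    refine Finset.sum_congr rfl ?_
    intro x _
    rw [Polynomial.coeff_mul_add_eq_of_natDegree_le (H x.1).1 (K x.2).1, (H x.1).2, (K x.2).2]

theorem Top.one : Top 0 (1 : MvPolynomial σ (Polynomial F)) 1 := by
  classical
  intro w
  rw [coeff_one, coeff_one]
  split_ifs <;> simp

theorem Top.pow {n : ℕ} {g : MvPolynomial σ (Polynomial F)} {g' : MvPolynomial σ F}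
    (H : Top n g g') (k : ℕ) : Top (k * n) (g ^ k) (g' ^ k) := by
  induction k with
  | zero => simpa using Top.one
  | succ k ih =>
    rw [pow_succ, pow_succ, Nat.succ_mul]
    exact ih.mul H

theorem Top.prod {ι : Type*} (s : Finset ι) (n : ι → ℕ)
    (g : ι → MvPolynomial σ (Polynomial F)) (g' : ι → MvPolynomial σ F)
    (H : ∀ i ∈ s, Top (n i) (g i) (g' i)) :
    Top (∑ i ∈ s, n i) (∏ i ∈ s, g i) (∏ i ∈ s, g' i) := by
  classical
  induction s using Finset.induction_on with
  | empty => simpa using Top.one
  | insert a s ha ih =>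
    rw [Finset.sum_insert ha, Finset.prod_insert ha, Finset.prod_insert ha]
    exact (H a (Finset.mem_insert_self _ _)).mul
      (ih fun i hi => H i (Finset.mem_insert_of_mem hi))

theorem Top.sum {ι : Type*} (s : Finset ι) (n : ℕ)
    (g : ι → MvPolynomial σ (Polynomial F)) (g' : ι → MvPolynomial σ F)
    (H : ∀ i ∈ s, Top n (g i) (g' i)) :
    Top n (∑ i ∈ s, g i) (∑ i ∈ s, g' i) := by
  classical
  intro w
  rw [coeff_sum, coeff_sum]
  constructor
  · refine Polynomial.natDegree_sum_le_of_forall_le _ _ ?_
    intro x hx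
    exact (H x hx w).1
  · rw [Polynomial.finsetSum_coeff]
    exact Finset.sum_congr rfl fun x hx => (H x hx w).2

theorem Top.lift {n n' : ℕ} {g : MvPolynomial σ (Polynomial F)} {g' : MvPolynomial σ F}
    (H : Top n g g') (h : n < n') : Top n' g 0 := by
  intro w
  refine ⟨(H w).1.trans h.le, ?_⟩
  rw [coeff_zero]
  exact Polynomial.coeff_eq_zero_of_natDegree_lt (lt_of_le_of_lt (H w).1 h)

theorem Top.const (c : F) : Top 0 (C (Polynomial.C c) : MvPolynomial σ (Polynomial F)) (C c) := by
  classical
  intro w
  rw [coeff_C, coeff_C]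
  split_ifs <;> simp

/-- coefficients divisible by powers of `π`. -/
def Good (π : Polynomial F) (n : ℕ) (g : MvPolynomial σ (Polynomial F)) : Prop :=
  ∀ w : σ →₀ ℕ, π ^ (n - w.degree) ∣ coeff w g

theorem Good.mul {π : Polynomial F} {n n' : ℕ} {g h : MvPolynomial σ (Polynomial F)}
    (H : Good π n g) (K : Good π n' h) : Good π (n + n') (g * h) := by
  classical
  intro w
  rw [coeff_mul]
  refine Finset.dvd_sum ?_
  intro x hx
  have hx' : x.1 + x.2 = w := Finset.HasAntidiagonal.mem_antidiagonal.mp hx
  have hd : x.1.degree + x.2.degree = w.degree := by rw [← hx', map_add]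
  refine (pow_dvd_pow π (?_ : n + n' - w.degree ≤ (n - x.1.degree) + (n' - x.2.degree))).trans ?_
  · omega
  · rw [pow_add]
    exact mul_dvd_mul (H x.1) (K x.2)

theorem Good.zero_left (π : Polynomial F) (g : MvPolynomial σ (Polynomial F)) : Good π 0 g := by
  intro w
  simp

theorem Good.pow {π : Polynomial F} {n : ℕ} {g : MvPolynomial σ (Polynomial F)}
    (H : Good π n g) (k : ℕ) : Good π (k * n) (g ^ k) := by
  induction k with
  | zero => simpa using Good.zero_left π _
  | succ k ih =>
    rw [pow_succ, Nat.succ_mul]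
    exact ih.mul H

theorem Good.prod {π : Polynomial F} {ι : Type*} (s : Finset ι) (n : ι → ℕ)
    (g : ι → MvPolynomial σ (Polynomial F)) (H : ∀ i ∈ s, Good π (n i) (g i)) :
    Good π (∑ i ∈ s, n i) (∏ i ∈ s, g i) := by
  classical
  induction s using Finset.induction_on with
  | empty => simpa using Good.zero_left π _
  | insert a s ha ih =>
    rw [Finset.sum_insert ha, Finset.prod_insert ha]
    exact (H a (Finset.mem_insert_self _ _)).mul
      (ih fun i hi => H i (Finset.mem_insert_of_mem hi))

theorem Good.sum {π : Polynomial F} {ι : Type*} (s : Finset ι) (n : ℕ)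
    (g : ι → MvPolynomial σ (Polynomial F)) (H : ∀ i ∈ s, Good π n (g i)) :
    Good π n (∑ i ∈ s, g i) := by
  classical
  intro w
  rw [coeff_sum]
  exact Finset.dvd_sum fun x hx => H x hx w

theorem Good.mono {π : Polynomial F} {n n' : ℕ} {g : MvPolynomial σ (Polynomial F)}
    (H : Good π n g) (h : n' ≤ n) : Good π n' g := by
  intro w
  exact (pow_dvd_pow π (by omega)).trans (H w)

end preds

section line

variable {F : Type*} [Field F] {d : ℕ}

/-- The polynomial `f (a + s (v + U))` in `U`, with coefficients in `F[s]`. -/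
noncomputable def lineSub (a v : Fin d → F) :
    MvPolynomial (Fin d) F →ₐ[F] MvPolynomial (Fin d) (Polynomial F) :=
  aeval (fun i => C (Polynomial.C (a i)) + C Polynomial.X * (C (Polynomial.C (v i)) + X i))

theorem aeval_expand {S : Type*} [CommRing S] [Algebra F S] (g : Fin d → S)
    (f : MvPolynomial (Fin d) F) :
    aeval g f = ∑ κ ∈ f.support, algebraMap F S (coeff κ f) * ∏ i, g i ^ κ i := by
  rw [aeval_def, eval₂_eq']

theorem algMap_eq (c : F) :
    algebraMap F (MvPolynomial (Fin d) (Polynomial F)) c = C (Polynomial.C c) := rfl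

theorem degree_eq_sum (κ : Fin d →₀ ℕ) : κ.degree = ∑ i, κ i :=
  Finsupp.degree_eq_sum κ

theorem lineSub_top (f : MvPolynomial (Fin d) F) (E : ℕ) (hf : f.totalDegree ≤ E)
    (a v : Fin d → F) :
    Top E (lineSub a v f) (shift v (homogeneousComponent E f)) := by
  classical
  have hgen : ∀ i : Fin d, Top 1
      (C (Polynomial.C (a i)) + C Polynomial.X * (C (Polynomial.C (v i)) + X i) :
        MvPolynomial (Fin d) (Polynomial F)) (X i + C (v i)) := by
    intro i w
    rw [mul_add, ← map_mul, coeff_add, coeff_add, coeff_add, coeff_C, coeff_C, coeff_C_mul,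
      coeff_X, coeff_C, coeff_X]
    constructor
    · split_ifs <;> simp <;> compute_degree
    · split_ifs <;> simp [Polynomial.coeff_C, add_comm]
  have hexp : shift v (homogeneousComponent E f) = ∑ κ ∈ f.support,
      (if κ.degree = E then C (coeff κ f) * ∏ i, (X i + C (v i)) ^ κ i else 0) := by
    rw [homogeneousComponent_apply, map_sum, Finset.sum_filter]
    refine Finset.sum_congr rfl ?_
    intro κ _
    split_ifs with h
    · rw [shift, aeval_monomial, Finsupp.prod_fintype _ _ (fun i => pow_zero _)]
      rfl
    · rfl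
  rw [lineSub, aeval_expand, hexp]
  refine Top.sum _ _ _ _ ?_
  intro κ hκ
  have hκE : κ.degree ≤ E := by
    have := le_totalDegree hκ
    rw [degree_eq_sum]
    rw [Finsupp.sum_fintype _ _ (fun _ => rfl)] at this
    exact this.trans hf
  have h1 : Top κ.degree (algebraMap F (MvPolynomial (Fin d) (Polynomial F)) (coeff κ f) *
      ∏ i, (C (Polynomial.C (a i)) + C Polynomial.X * (C (Polynomial.C (v i)) + X i)) ^ κ i)
      (C (coeff κ f) * ∏ i, (X i + C (v i)) ^ κ i) := by
    have h2 := (Top.const (σ := Fin d) (coeff κ f)).mul (Top.prod Finset.univ (fun i => κ i)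
      (fun i => (C (Polynomial.C (a i)) + C Polynomial.X * (C (Polynomial.C (v i)) + X i)) ^ κ i)
      (fun i => (X i + C (v i)) ^ κ i) (fun i _ => by simpa using (hgen i).pow (κ i)))
    rw [zero_add, ← degree_eq_sum] at h2
    exact h2
  split_ifs with h
  · rw [h] at h1
    exact h1
  · exact h1.lift (lt_of_le_of_ne hκE h)

theorem lineSub_good (f : MvPolynomial (Fin d) F) (M : ℕ) (a v : Fin d → F) (s : F)
    (h : VanishAt M f (fun i => a i + s * v i)) :
    Good (Polynomial.X - Polynomial.C s) M (lineSub a v f) := by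
  classical
  set π : Polynomial F := Polynomial.X - Polynomial.C s with hπ
  have hcomp : lineSub a v f =
      aeval (fun i => (C π * C (Polynomial.C (v i)) + C Polynomial.X * X i :
        MvPolynomial (Fin d) (Polynomial F))) (shift (fun i => a i + s * v i) f) := by
    rw [shift, lineSub]
    rw [← AlgHom.comp_apply, comp_aeval]
    congr 1
    congr 1
    funext i
    rw [map_add, aeval_X, aeval_C, algMap_eq, hπ]
    simp only [map_add, map_sub, map_mul]
    ring
  rw [hcomp, aeval_expand]
  refine Good.sum _ _ _ ?_
  intro κ hκ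
  have hκM : M ≤ κ.degree := by
    by_contra hlt
    exact (mem_support_iff.mp hκ) (h κ (not_le.mp hlt))
  have hgen : ∀ i : Fin d, Good π 1 (C π * C (Polynomial.C (v i)) + C Polynomial.X * X i :
        MvPolynomial (Fin d) (Polynomial F)) := by
    intro i w
    by_cases hw : w = 0
    · subst hw
      rw [← map_mul, coeff_add, coeff_C, coeff_C_mul, coeff_X]
      simp
    · have : 1 - w.degree = 0 := by
        have : w.degree ≠ 0 := by
          rw [Ne, Finsupp.degree_eq_zero_iff]
          exact hw
        omega
      rw [this, pow_zero]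
      exact one_dvd _
  have h2 := (Good.zero_left π (algebraMap F (MvPolynomial (Fin d) (Polynomial F))
    (coeff κ (shift (fun i => a i + s * v i) f)))).mul (Good.prod Finset.univ (fun i => κ i)
      (fun i => (C π * C (Polynomial.C (v i)) + C Polynomial.X * X i :
        MvPolynomial (Fin d) (Polynomial F)) ^ κ i)
      (fun i _ => by simpa using (hgen i).pow (κ i)))
  rw [zero_add, ← degree_eq_sum] at h2
  exact h2.mono hκM

/-- A univariate polynomial of small degree divisible by `(X - s)^n` for every `s` is zero. -/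
theorem eq_zero_of_dvd_all [Fintype F] (n : ℕ) (h : Polynomial F)
    (hdeg : h.natDegree < n * Fintype.card F)
    (hd : ∀ s : F, (Polynomial.X - Polynomial.C s) ^ n ∣ h) : h = 0 := by
  classical
  have hprod : (∏ s : F, (Polynomial.X - Polynomial.C s) ^ n) ∣ h := by
    refine Finset.prod_dvd_of_coprime ?_ (fun s _ => hd s)
    intro s _ t _ hst
    exact (Polynomial.isCoprime_X_sub_C_of_isUnit_sub (by
      exact (sub_ne_zero.mpr hst).isUnit)).pow
  by_contra hne
  have := Polynomial.natDegree_le_of_dvd hprod hne
  rw [Polynomial.natDegree_prod_of_monic _ _ (fun s _ => (Polynomial.monic_X_sub_C s).pow n)] at this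
  simp only [(Polynomial.monic_X_sub_C _).natDegree_pow, Polynomial.natDegree_X_sub_C, mul_one,
    Finset.sum_const, Finset.card_univ, smul_eq_mul] at this
  rw [mul_comm] at this
  omega

/-- If `f` of degree at most `E` vanishes to order `M` on a line with direction `v`, its top form
vanishes to order `J` at `v`. -/
theorem top_vanish [Fintype F] (f : MvPolynomial (Fin d) F) (E M J : ℕ) (hf : f.totalDegree ≤ E)
    (a v : Fin d → F) (h : ∀ s : F, VanishAt M f (fun i => a i + s * v i))
    (hE : E < (M + 1 - J) * Fintype.card F) :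
    VanishAt J (homogeneousComponent E f) v := by
  intro w hw
  have htop := lineSub_top f E hf a v w
  rw [← htop.2]
  have hzero : coeff w (lineSub a v f) = 0 := by
    refine eq_zero_of_dvd_all (M + 1 - J) _ (lt_of_le_of_lt htop.1 hE) ?_
    intro s
    exact (pow_dvd_pow _ (by omega)).trans (lineSub_good f M a v s (h s) w)
  rw [hzero, Polynomial.coeff_zero]

end line

end Pool.Agent.helper8.FF
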