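import Pool.Agent.helper8.FF.Final

/-!
Project FF, part 6: for `q` odd and `d = m + 1` there is a choice of classes covering few
polynomials.
-/

set_option autoImplicit false

namespace Pool.Agent.helper8.FF

open Polynomial

variable {F : Type*} [Field F] [Fintype F]

theorem two_ne_zero_of_odd (hq : Odd (Fintype.card F)) : (2 : F) ≠ 0 := by
  intro h0
  have h1 : ringChar F = 2 := by
    have hdvd := ringChar.dvd (R := F) (x := 2) (by exact_mod_cast h0)
    have hne : ringChar F ≠ 1 := CharP.ringChar_ne_one
    exact ((Nat.dvd_prime Nat.prime_two).mp hdvd).resolve_left hne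
  have := FiniteField.even_card_of_char_two h1
  rcases hq with ⟨k, hk⟩
  omega

/-- The number of squares in a finite field of odd order. -/
theorem card_squares [DecidableEq F] (hq : Odd (Fintype.card F)) :
    (Finset.univ.image fun x : F => x ^ 2).card ≤ (Fintype.card F + 1) / 2 := by
  have h2 := two_ne_zero_of_odd hq
  set T := (Finset.univ.erase (0 : F)).image fun x : F => x ^ 2 with hT
  have h3 : 2 * T.card ≤ (Finset.univ.erase (0 : F)).card := by
    refine Finset.mul_card_image_le_card _ 2 ?_
    intro y hy
    obtain ⟨x, hx, rfl⟩ := Finset.mem_image.mp hy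
    have hx0 : x ≠ 0 := (Finset.mem_erase.mp hx).1
    have hne : x ≠ -x := by
      intro h
      apply hx0
      have h3 : (2 : F) * x = 0 := by linear_combination h
      exact (mul_eq_zero.mp h3).resolve_left h2
    have hsub : ({x, -x} : Finset F) ⊆
        (Finset.univ.erase (0 : F)).filter fun a => a ^ 2 = x ^ 2 := by
      intro a ha
      rw [Finset.mem_insert, Finset.mem_singleton] at ha
      rw [Finset.mem_filter, Finset.mem_erase]
      rcases ha with rfl | rfl
      · exact ⟨⟨hx0, Finset.mem_univ _⟩, rfl⟩
      · exact ⟨⟨neg_ne_zero.mpr hx0, Finset.mem_univ _⟩, by ring⟩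
    calc 2 = ({x, -x} : Finset F).card := (Finset.card_pair hne).symm
      _ ≤ _ := Finset.card_le_card hsub
  have h4 : (Finset.univ.image fun x : F => x ^ 2) ⊆ insert 0 T := by
    intro y hy
    obtain ⟨x, _, rfl⟩ := Finset.mem_image.mp hy
    by_cases hx : x = 0
    · rw [hx]
      simp
    · exact Finset.mem_insert_of_mem (Finset.mem_image.mpr
        ⟨x, Finset.mem_erase.mpr ⟨hx, Finset.mem_univ _⟩, rfl⟩)
  have h5 := (Finset.card_le_card h4).trans (Finset.card_insert_le _ _)
  rw [Finset.card_erase_of_mem (Finset.mem_univ _), Finset.card_univ] at h3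
  have : 1 ≤ Fintype.card F := Fintype.card_pos
  omega

theorem small_choice (m : ℕ) (hq : Odd (Fintype.card F)) :
    ∃ a : F[X] → F[X], (hitSet (irr F m) a (m + 1)).ncard ≤
      Fintype.card F * ((Fintype.card F + 1) / 2) ^ m := by
  classical
  have h2 := two_ne_zero_of_odd hq
  let a : F[X] → F[X] := fun p => ∑ i ∈ Finset.range m, C ((p.coeff i) ^ 2) * X ^ i
  have hacoeff : ∀ (p : F[X]) (k : ℕ), (a p).coeff k = if k < m then (p.coeff k) ^ 2 else 0 := by
    intro p k
    simp only [a, finsetSum_coeff, coeff_C_mul, coeff_X_pow, mul_ite, mul_one, mul_zero]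
    by_cases hk : k < m
    · rw [if_pos hk, Finset.sum_ite_eq_of_mem _ _ _ (Finset.mem_range.mpr hk)]
    · rw [if_neg hk]
      refine Finset.sum_eq_zero ?_
      intro i hi
      rw [if_neg]
      intro h
      exact hk (h ▸ Finset.mem_range.mp hi)
  refine ⟨a, ?_⟩
  let Sq : Finset F := Finset.univ.image fun x : F => x ^ 2
  -- parametrisation
  let g : F × (Fin m → F) → F[X] := fun x =>
    ∑ i : Fin m, C (x.2 i - (x.1 / 2) ^ 2) * X ^ (i : ℕ) + C x.1 * X ^ m
  let D : Finset (F × (Fin m → F)) := Finset.univ ×ˢ Fintype.piFinset fun _ => Sq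
  have hsub : hitSet (irr F m) a (m + 1) ⊆ ((D.image g : Finset F[X]) : Set F[X]) := by
    rintro n ⟨hn, p, hp, c, hc⟩
    have hmon := hp.1
    have hnat := hp.2.2
    have hadeg : (a p).degree < ((m + 1 : ℕ) : WithBot ℕ) := by
      rw [degree_lt_iff_coeff_zero]
      intro k hk
      rw [hacoeff, if_neg (by omega)]
    have hcdeg : c.degree < ((1 : ℕ) : WithBot ℕ) := by
      by_cases hc0 : c = 0
      · rw [hc0, degree_zero]
        exact WithBot.bot_lt_coe _
      · have h3 : (p * c).degree < ((m + 1 : ℕ) : WithBot ℕ) := by
          rw [← hc]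
          exact lt_of_le_of_lt (degree_sub_le _ _) (max_lt hn hadeg)
        rw [degree_mul, degree_eq_natDegree hmon.ne_zero, hnat, degree_eq_natDegree hc0] at h3
        rw [degree_eq_natDegree hc0]
        have h4 : m + c.natDegree < m + 1 := by exact_mod_cast h3
        exact_mod_cast (by omega : c.natDegree < 1)
    obtain ⟨t, rfl⟩ : ∃ t : F, c = C t := by
      refine ⟨c.coeff 0, ?_⟩
      ext k
      rcases k with _ | k
      · rw [coeff_C_zero]
      · rw [coeff_C_succ]
        exact (degree_lt_iff_coeff_zero _ _).mp hcdeg (k + 1) (by omega)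
    have hn' : n = a p + p * C t := by linear_combination hc
    rw [Finset.mem_coe, Finset.mem_image]
    refine ⟨(t, fun i => (p.coeff i + t / 2) ^ 2), ?_, ?_⟩
    · rw [Finset.mem_product, Fintype.mem_piFinset]
      exact ⟨Finset.mem_univ _, fun i => Finset.mem_image.mpr ⟨_, Finset.mem_univ _, rfl⟩⟩
    · rw [hn']
      ext k
      have hgc : (g (t, fun i => (p.coeff i + t / 2) ^ 2)).coeff k =
          if k < m then (p.coeff k + t / 2) ^ 2 - (t / 2) ^ 2 else if k = m then t else 0 := by
        simp only [g, coeff_add, finsetSum_coeff, coeff_C_mul, coeff_X_pow, mul_ite, mul_one,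
          mul_zero]
        by_cases hk : k < m
        · rw [if_pos hk, if_neg (by omega : ¬ k = m), add_zero]
          rw [Finset.sum_eq_single ⟨k, hk⟩]
          · simp
          · intro i _ hi
            rw [if_neg]
            intro h
            exact hi (Fin.ext h.symm)
          · intro h
            exact absurd (Finset.mem_univ _) h
        · rw [if_neg hk]
          have : ∑ x : Fin m, (if k = (x : ℕ) then (p.coeff x + t / 2) ^ 2 - (t / 2) ^ 2 else 0) = 0 := by
            refine Finset.sum_eq_zero ?_
            intro i _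
            rw [if_neg]
            have := i.2
            omega
          rw [this, zero_add]
      rw [hgc, coeff_add, hacoeff, coeff_mul_C]
      by_cases hk : k < m
      · rw [if_pos hk, if_pos hk]
        field_simp
        ring
      · rw [if_neg hk, if_neg hk]
        by_cases hkm : k = m
        · rw [if_pos hkm, hkm]
          have : p.coeff m = 1 := by
            rw [← hnat]
            exact hmon.coeff_natDegree
          rw [this]
          ring
        · rw [if_neg hkm]
          have : p.coeff k = 0 := coeff_eq_zero_of_natDegree_lt (by omega)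
          rw [this]
          ring
  calc (hitSet (irr F m) a (m + 1)).ncard
      ≤ ((D.image g : Finset F[X]) : Set F[X]).ncard := Set.ncard_le_ncard hsub (Finset.finite_toSet _)
    _ = (D.image g).card := Set.ncard_coe_finset _
    _ ≤ D.card := Finset.card_image_le
    _ = Fintype.card F * Sq.card ^ m := by
        rw [Finset.card_product, Finset.card_univ, Fintype.card_piFinset]
        simp
    _ ≤ Fintype.card F * ((Fintype.card F + 1) / 2) ^ m :=
        Nat.mul_le_mul_left _ (Nat.pow_le_pow_left (card_squares hq) m)

end Pool.Agent.helper8.FF
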